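import Pool.Agent.H575.SD.Pow
import Pool.Graph.R_pool_sql_team_seeded_ab47071d.TH11.SD.Model
import Pool.Graph.R_pool_sql_team_seeded_ab47071d.TH124.SD.H2b
import Pool.Graph.R_pool_sql_team_seeded_ab47071d.TH159.SD.JOmega
import Pool.Graph.R_pool_sql_team_seeded_ab47071d.TH179.SD.AlphaF
import Pool.Graph.R_pool_sql_team_seeded_ab47071d.TH179.SD.Asm
import Pool.Graph.R_pool_sql_team_seeded_ab47071d.TH225.SD.K2b
import Pool.Graph.R_pool_sql_team_seeded_ab47071d.TH348.SD.Frame
import Pool.Graph.R_pool_sql_team_seeded_ab47071d.TH55.SD.P1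
import Pool.Graph.R_pool_sql_team_seeded_ab47071d.TH615.SD.NoJ
import Pool.Graph.R_pool_sql_team_seeded_ab47071d.TH720.SD.Polar
import Pool.Graph.R_pool_sql_team_seeded_ab47071d.TH828.SD.Dual
import Pool.Graph.R_pool_sql_team_seeded_ab47071d.TH874.SD.Pi
import Pool.Graph.R_pool_sql_team_seeded_ab47071d.TH886.SD.P2
import Pool.Graph.R_pool_sql_team_seeded_ab47071d.TH902.SD.Sigma
import Pool.Graph.R_pool_sql_team_seeded_ab47071d.TH940.SD.Stokes
import Pool.Graph.R_pool_sql_team_seeded_ab47071d.TH959.SD.Cut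
import Pool.Graph.R_pool_sql_team_seeded_ab47071d.TH964.SD.G5c
import Pool.Graph.R_pool_sql_team_seeded_ab47071d.TH656.SDNull
import Pool.Graph.R_pool_sql_team_seeded_ab47071d.TH713.SDG3
import Pool.Graph.R_pool_sql_team_seeded_ab47071d.TH790.SDG.Glue3
import Pool.Graph.R_pool_sql_team_seeded_ab47071d.TH989.SDWedge
import Pool.Graph.R_pool_sql_team_seeded_ab47071d.TH306.IX.Flat
import Pool.Graph.R_pool_sql_team_seeded_ab47071d.TH365.J1649
import Pool.Graph.R_pool_sql_team_seeded_ab47071d.TH921.J1630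

/-! # Project SD: all tasks -/

set_option autoImplicit false

open scoped ContDiff Topology Manifold
open Set

noncomputable section

namespace Pool.Agent.H575.SD

open Pool.Agent.TH179.SD

theorem tSmooth : TaskSmooth := Pool.Agent.TH365.J1649.taskSmooth

theorem tH2 : TaskH2 := Pool.Agent.TH124.SD.taskH2 tSmooth Pool.Agent.TH55.SD.taskP1
  Pool.Agent.TH55.SD.taskP1c Pool.Agent.TH886.SD.taskP2 Pool.Agent.TH959.SD.taskCut

theorem tOmega : ¬ ∃ Ω, OmegaBad Ω :=
  no_omega Pool.Agent.TH720.SD.taskPolar Pool.Agent.TH921.J1630.taskMom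
    Pool.Agent.TH225.SDK2.taskAsym Pool.Agent.TH306.IX.taskIndex Pool.Agent.TH828.SD.taskDual
    Pool.Agent.TH615.SD.taskNoJ (Pool.Agent.TH159.SD.taskJOmega powProps)

theorem tAlpha : TaskAlpha := Pool.Agent.TH179.SDAlpha.taskAlpha tSmooth powProps

theorem tFrame : TaskFrame := Pool.Agent.TH348.SD.taskFrame tSmooth

theorem tStokes : TaskStokes := Pool.Agent.TH940.SD.taskStokes tSmooth

/-- every nondegenerate form induces the orientation of the charts -/
theorem pos_of_nondeg {w : Idx → V → Alt 2} (hw : IsF 2 w) (hn : ∀ c q, pow4 (w c q) rb ≠ 0) :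
    ∀ c q, 0 < pow4 (w c q) rb := by
  rcases sign_const powProps tSmooth hw hn with h | h
  · exact h
  · exact absurd h (not_neg powProps tSmooth Pool.Agent.TH720.SD.taskPolar
      Pool.Agent.TH874.SD.taskPi Pool.Agent.TH656.SD.taskNull Pool.Agent.TH790.SDG.taskGlue
      tFrame tOmega hw)

section model

variable {M : Type} [TopologicalSpace M] (D : Model M)

/-- a closed form whose fourth power is not exact -/
theorem exists_class [CompactSpace M] [T2Space M] :
    letI := D.charted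
    ∃ α : DForm M 2, α.Closed ∧ ¬ α.Pow4Exact := by
  letI := D.charted
  have hS := tSmooth
  obtain ⟨α, l, n, hα⟩ := tAlpha
  refine ⟨D.form hS α hα.form, fun c y _ => hα.closed _ _, ?_⟩
  rintro ⟨b, hb⟩
  refine not_exact D tStokes hα (D.fam_isF hS b) fun c q v => ?_
  have e := hb ⟨D.φ c, ⟨c, rfl⟩⟩ q (by rw [D.target]; trivial) v
  have hid := D.idx_spec ⟨D.φ c, ⟨c, rfl⟩⟩
  -- the index of the chart may differ from `c`, but the forms agree
  have hc : (D.form hS α hα.form).loc ⟨D.φ c, ⟨c, rfl⟩⟩ q = α c q := by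
    set d := D.idx ⟨D.φ c, ⟨c, rfl⟩⟩ with hd
    have hq : q ∈ O c d := by
      have h1 := (D.overlap c d q).1
      apply h1
      rw [hid]
      exact (D.φ c).map_target (by rw [D.target]; trivial)
    have h2 := hα.form.compat c d q hq
    have h3 : tr c d =ᶠ[𝓝 q] id := by
      filter_upwards [(hS c d).1.mem_nhds hq] with x hx
      rw [← D.trans c d x hx, hid]
      exact (D.φ c).right_inv (by rw [D.target]; trivial)
    rw [h3.fderiv_eq, h3.eq_of_nhds] at h2
    rw [h2]
    show α d q = _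
    ext v
    simp
  rw [hc] at e
  exact e

/-- there is no symplectic form -/
theorem no_symp [CompactSpace M] [T2Space M] :
    letI := D.charted
    ¬ ∃ w : DForm M 2, w.Closed ∧ w.Nondegenerate := by
  letI := D.charted
  have hS := tSmooth
  rintro ⟨w, hwc, hwn⟩
  have hw := D.fam_isF hS w
  have hwc' : ∀ c q, extDeriv (D.fam w c) q = 0 := fun c q =>
    hwc ⟨D.φ c, ⟨c, rfl⟩⟩ q (by rw [D.target]; trivial)
  have hn : ∀ c q, pow4 (D.fam w c q) rb ≠ 0 := fun c q =>
    (powProps.nondeg _).2 fun u hu => hwn ⟨D.φ c, ⟨c, rfl⟩⟩ q (by rw [D.target]; trivial) u hu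
  exact not_pos D powProps hS Pool.Agent.TH989.SD.taskWedge tAlpha tH2 tStokes hw hwc'
    (pos_of_nondeg hw hn)

/-- an almost complex structure and a nondegenerate form tamed by it -/
theorem exists_tame [CompactSpace M] [T2Space M] :
    letI := D.charted
    ∃ (J : ACS M) (s : DForm M 2), ∀ c, ∀ y ∈ c.1.target, ∀ u : V, u ≠ 0 →
      0 < s.loc c y ![u, J.loc c y u] := by
  letI := D.charted
  have hS := tSmooth
  obtain ⟨J, hJ⟩ := Pool.Agent.TH964.SD.taskJ hS tFrame
  obtain ⟨s, hs, -, hpos⟩ := Pool.Agent.TH902.SD.taskSigma M D powProps hS J hJ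
  exact ⟨D.acs hS J hJ, D.form hS s hs, fun c y _ u hu => hpos _ _ u hu⟩

end model

/-- **Main theorem** -/
theorem main : ∃ (M : Type) (_ : TopologicalSpace M) (_ : ChartedSpace V M),
      IsManifold 𝓘(ℝ, V) ∞ M ∧ CompactSpace M ∧ T2Space M ∧ SimplyConnectedSpace M ∧
      (∃ (J : ACS M) (s : DForm M 2), ∀ c, ∀ y ∈ c.1.target, ∀ u : V, u ≠ 0 →
        0 < s.loc c y ![u, J.loc c y u]) ∧
      (∃ α : DForm M 2, α.Closed ∧ ¬ α.Pow4Exact) ∧
      ¬ ∃ w : DForm M 2, w.Closed ∧ w.Nondegenerate := by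
  obtain ⟨M, tM, cM, t2M, ⟨D⟩⟩ := Pool.Agent.TH179.SD.X11.taskModel
  letI := D.charted
  exact ⟨M, tM, D.charted, D.manifold tSmooth, cM, t2M, Pool.Agent.TH713.SDG3.taskSC M ⟨D⟩,
    exists_tame D, exists_class D, no_symp D⟩

end Pool.Agent.H575.SD
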