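import Mathlib
import Pool.Graph.R_pool_sql_team_seeded_ab47071d.TH179.SD.Lin
import Pool.Graph.R_seed8.Y519.AS.Nonv

/-!
# Project SD, task L2: the fourth power of a 2-form on `V`
-/

set_option autoImplicit false

open Equiv Finset Module

namespace Pool.Agent.H575.SD

open Pool.Agent.TH179.SD Pool.Agent.Y519.AS

section bil

variable {E : Type} [NormedAddCommGroup E] [NormedSpace ℝ E]

lemma swap_two (a : AltE E 2) (u v : E) : a ![u, v] = -a ![v, u] := by
  have h := a.toAlternatingMap.map_swap ![v, u] (i := 0) (j := 1) (by decide)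
  have e : (![v, u] : Fin 2 → E) ∘ (swap (0 : Fin 2) 1) = ![u, v] := by
    funext i
    fin_cases i <;> simp
  rw [e] at h
  exact h

lemma add_left (a : AltE E 2) (u u' v : E) : a ![u + u', v] = a ![u, v] + a ![u', v] := by
  have h := a.toAlternatingMap.map_vecCons_add ![v] u u'
  exact h

lemma smul_left (a : AltE E 2) (c : ℝ) (u v : E) : a ![c • u, v] = c * a ![u, v] := by
  have h := a.toAlternatingMap.map_vecCons_smul ![v] c u
  exact h

/-- the bilinear form -/
noncomputable def bil (a : AltE E 2) : E →ₗ[ℝ] E →ₗ[ℝ] ℝ :=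
  LinearMap.mk₂ ℝ (fun u v => a ![u, v]) (fun u u' v => add_left a u u' v)
    (fun c u v => smul_left a c u v)
    (fun u v v' => by
      rw [swap_two a u (v + v'), add_left, swap_two a u v, swap_two a u v']
      ring)
    (fun c u v => by
      rw [swap_two a u (c • v), smul_left, swap_two a u v, smul_eq_mul]
      ring)

@[simp] lemma bil_apply (a : AltE E 2) (u v : E) : bil a u v = a ![u, v] := rfl

/-- the pairs of indices -/
def ee : Fin 4 × Fin 2 ≃ Fin 8 := finProdFinEquiv

lemma wedge4_eq (a b c d : AltE E 2) (v : Fin 8 → E) :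
    wedge4 a b c d v = pf (fun x => v (ee x)) ![bil a, bil b, bil c, bil d] := by
  unfold wedge4 pf
  refine Fintype.sum_equiv (Equiv.permCongr ee.symm) _ _ fun σ => ?_
  rw [Perm.sign_permCongr, Fin.prod_univ_four]
  simp only [Equiv.permCongr_apply, Equiv.symm_symm, Equiv.apply_symm_apply]
  rfl

end bil

/-! ### the formal properties -/

section formal

variable {E : Type} [NormedAddCommGroup E] [NormedSpace ℝ E]

lemma wedge4_perm (a b c d a' b' c' d' : AltE E 2) (v : Fin 8 → E) (τ : Perm (Fin 8))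
    (hτ : Perm.sign τ = 1) (h : ∀ w : Fin 8 → E,
      a ![w 0, w 1] * b ![w 2, w 3] * c ![w 4, w 5] * d ![w 6, w 7] =
      a' ![w (τ 0), w (τ 1)] * b' ![w (τ 2), w (τ 3)] * c' ![w (τ 4), w (τ 5)] *
        d' ![w (τ 6), w (τ 7)]) : wedge4 a b c d v = wedge4 a' b' c' d' v := by
  unfold wedge4
  refine Fintype.sum_equiv (Equiv.mulRight τ) _ _ fun σ => ?_
  simp only [Equiv.coe_mulRight, Perm.sign_mul, hτ, mul_one, Perm.mul_apply]
  rw [h (fun i => v (σ i))]

lemma w12 (a b c d : AltE E 2) (v : Fin 8 → E) : wedge4 a b c d v = wedge4 b a c d v := by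
  refine wedge4_perm a b c d b a c d v (swap 0 2 * swap 1 3) (by decide) fun w => ?_
  have e : ∀ i : Fin 8, (swap (0 : Fin 8) 2 * swap 1 3 : Perm (Fin 8)) i = ![2, 3, 0, 1, 4, 5, 6, 7] i := by
    decide
  simp only [e]
  change _ = b ![w 2, w 3] * a ![w 0, w 1] * c ![w 4, w 5] * d ![w 6, w 7]
  ring

lemma w23 (a b c d : AltE E 2) (v : Fin 8 → E) : wedge4 a b c d v = wedge4 a c b d v := by
  refine wedge4_perm a b c d a c b d v (swap 2 4 * swap 3 5) (by decide) fun w => ?_
  have e : ∀ i : Fin 8, (swap (2 : Fin 8) 4 * swap 3 5 : Perm (Fin 8)) i = ![0, 1, 4, 5, 2, 3, 6, 7] i := by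
    decide
  simp only [e]
  change _ = a ![w 0, w 1] * c ![w 4, w 5] * b ![w 2, w 3] * d ![w 6, w 7]
  ring

lemma w34 (a b c d : AltE E 2) (v : Fin 8 → E) : wedge4 a b c d v = wedge4 a b d c v := by
  refine wedge4_perm a b c d a b d c v (swap 4 6 * swap 5 7) (by decide) fun w => ?_
  have e : ∀ i : Fin 8, (swap (4 : Fin 8) 6 * swap 5 7 : Perm (Fin 8)) i = ![0, 1, 2, 3, 6, 7, 4, 5] i := by
    decide
  simp only [e]
  change _ = a ![w 0, w 1] * b ![w 2, w 3] * d ![w 6, w 7] * c ![w 4, w 5]
  ring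

lemma wadd (a a' b c d : AltE E 2) (v : Fin 8 → E) :
    wedge4 (a + a') b c d v = wedge4 a b c d v + wedge4 a' b c d v := by
  unfold wedge4
  rw [← Finset.sum_add_distrib]
  refine Finset.sum_congr rfl fun σ _ => ?_
  rw [ContinuousAlternatingMap.add_apply]
  ring

lemma wsmul (r : ℝ) (a b c d : AltE E 2) (v : Fin 8 → E) :
    wedge4 (r • a) b c d v = r * wedge4 a b c d v := by
  unfold wedge4
  rw [Finset.mul_sum]
  refine Finset.sum_congr rfl fun σ _ => ?_
  rw [ContinuousAlternatingMap.smul_apply, smul_eq_mul]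
  ring

lemma wcont (v : Fin 8 → E) : Continuous fun a : AltE E 2 => pow4 a v := by
  unfold pow4 wedge4
  have h : ∀ u : Fin 2 → E, Continuous fun a : AltE E 2 => a u := fun u =>
    continuous_eval_const u
  exact continuous_finsetSum _ fun σ _ => continuous_const.mul
    ((((h _).mul (h _)).mul (h _)).mul (h _))

end formal

/-! ### the basis -/

/-- the real basis of `V` -/
noncomputable def bas : Basis (Fin 4 × Fin 2) ℝ V :=
  (Pi.basis fun _ : Fin 4 => Complex.basisOneI).reindex (Equiv.sigmaEquivProd (Fin 4) (Fin 2))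

lemma bas_zero (m : Fin 4) : bas (m, 0) = Pi.single m 1 := by
  unfold bas
  rw [Basis.reindex_apply]
  change (Pi.basis fun _ : Fin 4 => Complex.basisOneI) ⟨m, 0⟩ = _
  rw [Pi.basis_apply]
  simp

lemma bas_one (m : Fin 4) : bas (m, 1) = Pi.single m Complex.I := by
  unfold bas
  rw [Basis.reindex_apply]
  change (Pi.basis fun _ : Fin 4 => Complex.basisOneI) ⟨m, 1⟩ = _
  rw [Pi.basis_apply]
  simp

lemma rb_ee (x : Fin 4 × Fin 2) : rb (ee x) = bas x := by
  obtain ⟨m, j⟩ := x
  have h : ∀ m : Fin 4, ((ee (m, 0) : Fin 8) : ℕ) = 2 * m ∧ ((ee (m, 1) : Fin 8) : ℕ) = 2 * m + 1 := by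
    decide
  obtain ⟨h0, h1⟩ := h m
  unfold rb
  fin_cases j
  · change (Pi.single ⟨((ee (m, 0) : Fin 8) : ℕ) / 2, _⟩ _ : V) = bas (m, 0)
    rw [bas_zero]
    have e : (⟨((ee (m, 0) : Fin 8) : ℕ) / 2, by omega⟩ : Fin 4) = m := Fin.ext (by simp [h0])
    rw [if_pos (by simp [h0]), e]
  · change (Pi.single ⟨((ee (m, 1) : Fin 8) : ℕ) / 2, _⟩ _ : V) = bas (m, 1)
    rw [bas_one]
    have e : (⟨((ee (m, 1) : Fin 8) : ℕ) / 2, by omega⟩ : Fin 4) = m := Fin.ext (by simp [h1]; omega)
    rw [if_neg (by simp [h1]), e]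

lemma wedge4_rb (a b c d : Alt 2) :
    wedge4 a b c d rb = pf bas ![bil a, bil b, bil c, bil d] := by
  rw [wedge4_eq]
  congr 1
  funext x
  exact rb_ee x

lemma pow4_rb (a : Alt 2) : pow4 a rb = pf bas (fun _ => bil a) := by
  unfold pow4
  rw [wedge4_rb]
  congr 1
  funext m
  fin_cases m <;> rfl

lemma pcomp (a b c d : Alt 2) (L : V →L[ℝ] V) :
    wedge4 (a.compContinuousLinearMap L) (b.compContinuousLinearMap L)
      (c.compContinuousLinearMap L) (d.compContinuousLinearMap L) rb = L.det * wedge4 a b c d rb := by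
  rw [wedge4_rb, wedge4_rb]
  have h := pf_comp bas (L : V →ₗ[ℝ] V) ![bil a, bil b, bil c, bil d]
  have e : ∀ w : Alt 2, bil (w.compContinuousLinearMap L) =
      (bil w).compl₁₂ (L : V →ₗ[ℝ] V) (L : V →ₗ[ℝ] V) := by
    intro w
    refine LinearMap.ext fun u => LinearMap.ext fun v => ?_
    simp only [bil_apply, LinearMap.compl₁₂_apply]
    rw [ContinuousAlternatingMap.compContinuousLinearMap_apply]
    congr 1
    funext i
    fin_cases i <;> rfl
  have e2 : (fun m => ((![bil a, bil b, bil c, bil d] : Fin 4 → _) m).compl₁₂ (L : V →ₗ[ℝ] V)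
      (L : V →ₗ[ℝ] V)) = ![bil (a.compContinuousLinearMap L), bil (b.compContinuousLinearMap L),
        bil (c.compContinuousLinearMap L), bil (d.compContinuousLinearMap L)] := by
    funext m
    fin_cases m <;> simp [e]
  rw [e2] at h
  exact h

lemma bil_alt (a : Alt 2) (v : V) : bil a v v = 0 := by
  have h := swap_two a v v
  rw [bil_apply]
  linarith

lemma pnondeg (a : Alt 2) : pow4 a rb ≠ 0 ↔ ∀ u : V, (∀ v, a ![u, v] = 0) → u = 0 := by
  constructor
  · intro h u hu
    by_contra hne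
    apply h
    rw [pow4_rb]
    obtain ⟨φ, hφ⟩ : ∃ φ : V →ₗ[ℝ] ℝ, φ u = 1 := by
      obtain ⟨i, hi⟩ : ∃ i, bas.repr u i ≠ 0 := by
        by_contra hcon
        push Not at hcon
        exact hne (bas.repr.map_eq_zero_iff.1 (Finsupp.ext hcon))
      refine ⟨(bas.repr u i)⁻¹ • bas.coord i, ?_⟩
      rw [LinearMap.smul_apply, Basis.coord_apply, smul_eq_mul, inv_mul_cancel₀ hi]
    set A : V →ₗ[ℝ] V := LinearMap.id - φ.smulRight u with hA
    have h1 := pf_comp bas A (fun _ => bil a)
    have h2 : (fun _ : Fin 4 => (bil a).compl₁₂ A A) = fun _ => bil a := by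
      funext _
      refine LinearMap.ext fun x => LinearMap.ext fun y => ?_
      have e1 : ∀ y, bil a u y = 0 := hu
      have e2 : ∀ y, bil a y u = 0 := fun y => by
        rw [bil_apply, swap_two, hu, neg_zero]
      rw [LinearMap.compl₁₂_apply]
      have e3 : ∀ z, A z = z - φ z • u := fun z => rfl
      rw [e3, e3, map_sub, map_sub, LinearMap.sub_apply, LinearMap.sub_apply, map_smul, map_smul,
        LinearMap.smul_apply, LinearMap.smul_apply, map_smul, e1, e1, e2]
      simp
    have h3 : LinearMap.det A = 0 := by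
      by_contra hd
      have hi := (LinearMap.equivOfDetNeZero A hd).injective
      have h4 : A u = A 0 := by
        simp [hA, hφ]
      exact hne (hi h4)
    rw [h2, h3, zero_mul] at h1
    exact h1
  · intro h
    rw [pow4_rb]
    exact pf_ne_zero bas (bil a) (bil_alt a) h

/-! ### the diagonal forms -/

section gen

variable {k : ℕ} {W : Type} [AddCommGroup W] [Module ℝ W]

/-- the sum over all maps of a function which vanishes off the bijections -/
lemma sum_maps (g : (Fin k → Fin k) → ℝ) (c : ℝ) (h5 : ∀ r, ¬ Function.Bijective r → g r = 0)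
    (h6 : ∀ σ : Perm (Fin k), g (fun i => σ i) = c) : ∑ r, g r = (k.factorial : ℝ) * c := by
  classical
  have h9 : ∑ r ∈ Finset.image (fun σ : Perm (Fin k) => (fun i => σ i : Fin k → Fin k))
      Finset.univ, g r = ∑ r, g r := by
    refine Finset.sum_subset (Finset.subset_univ _) fun r _ hr => h5 r fun hb => hr ?_
    exact Finset.mem_image.2 ⟨Equiv.ofBijective r hb, Finset.mem_univ _, rfl⟩
  rw [← h9, Finset.sum_image (fun σ _ τ _ hst => Equiv.ext fun i => congrFun hst i)]
  simp only [h6]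
  rw [Finset.sum_const, Finset.card_univ, Fintype.card_perm, Fintype.card_fin, nsmul_eq_mul]

lemma pf_term (b : Basis (Fin k × Fin 2) ℝ W) (d : Fin k → ℝ) (r : Fin k → Fin k) :
    pfM (b : Fin k × Fin 2 → W)
      (fun i => d (r i) • tens (b.coord (r i, 0)) (b.coord (r i, 1)))
      = (∏ i, d (r i)) * (Matrix.det (Matrix.of fun i j : Fin k => if i = r j then (1 : ℝ) else 0)) ^ 2 := by
  rw [(pfM (b : Fin k × Fin 2 → W)).map_smul_univ (fun i => d (r i))
    (fun i => tens (b.coord (r i, 0)) (b.coord (r i, 1))), smul_eq_mul]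
  congr 1
  rw [pfM_apply]
  have h3 := pf_tens (b : Fin k × Fin 2 → W) (fun y => b.coord (r y.1, y.2))
  simp only at h3
  rw [h3]
  have h4 : (Matrix.of fun i j : Fin k × Fin 2 => b.coord (r j.1, j.2) (b i))
      = Matrix.kroneckerMap (fun x y => x * y)
        (Matrix.of fun i j : Fin k => if i = r j then (1 : ℝ) else 0)
        (1 : Matrix (Fin 2) (Fin 2) ℝ) := by
    ext ⟨i, i'⟩ ⟨j, j'⟩
    rw [Matrix.kroneckerMap_apply, Matrix.of_apply, Matrix.of_apply, Basis.coord_apply,
      Basis.repr_self, Finsupp.single_apply, Matrix.one_apply]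
    by_cases h5 : i = r j
    · by_cases h6 : i' = j'
      · simp [h5, h6]
      · simp [h5, h6]
    · simp [h5]
  rw [h4, Matrix.det_kronecker]
  simp

lemma det_zero (r : Fin k → Fin k) (hr : ¬ Function.Bijective r) :
    Matrix.det (Matrix.of fun i j : Fin k => if i = r j then (1 : ℝ) else 0) = 0 := by
  have hni : ¬ Function.Injective r := fun h => hr (Finite.injective_iff_bijective.1 h)
  obtain ⟨i, j, hij, hne⟩ : ∃ i j, r i = r j ∧ i ≠ j := by
    unfold Function.Injective at hni
    push Not at hni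
    exact hni
  exact Matrix.det_zero_of_column_eq hne (fun k => by simp [hij])

lemma det_sq (σ : Perm (Fin k)) :
    (Matrix.det (Matrix.of fun i j : Fin k => if i = σ j then (1 : ℝ) else 0)) ^ 2 = 1 := by
  have e1 : (Matrix.of fun i j : Fin k => if i = σ j then (1 : ℝ) else 0) =
      (Equiv.Perm.permMatrix ℝ σ).transpose := by
    ext i j
    simp [Equiv.Perm.permMatrix, PEquiv.toMatrix_apply, eq_comm]
  rw [e1, Matrix.det_transpose, Matrix.det_permutation]
  rcases Int.units_eq_one_or (Perm.sign σ) with h | h <;> simp [h]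

lemma pf_diag (b : Basis (Fin k × Fin 2) ℝ W) (d : Fin k → ℝ) :
    pf b (fun _ => ∑ m, d m • tens (b.coord (m, 0)) (b.coord (m, 1))) =
      (k.factorial : ℝ) * ∏ m, d m := by
  rw [← pfM_apply]
  have h1 := (pfM (b : Fin k × Fin 2 → W)).map_sum
    (fun (_ : Fin k) (m : Fin k) => d m • tens (b.coord (m, 0)) (b.coord (m, 1)))
  rw [h1]
  simp only [pf_term]
  refine sum_maps _ _ (fun r hr => by rw [det_zero r hr]; ring) (fun σ => ?_)
  rw [det_sq, mul_one]
  exact Equiv.prod_comp σ d

end gen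

lemma pdiag (a : Alt 2) (d : Fin 4 → ℝ)
    (h : ∀ (i j : Fin 4) (x y : ℂ), a ![Pi.single i x, Pi.single j y] =
      if i = j then d i * ((starRingEnd ℂ) x * y).im else 0) : pow4 a rb = 384 * ∏ k, d k := by
  have hω : bil a = (∑ m, d m • tens (bas.coord (m, 0)) (bas.coord (m, 1)))
      - (∑ m, d m • tens (bas.coord (m, 0)) (bas.coord (m, 1))).flip := by
    refine bas.ext fun x => bas.ext fun y => ?_
    obtain ⟨m, i⟩ := x
    obtain ⟨m', i'⟩ := y
    rw [bil_apply]
    simp only [LinearMap.sub_apply, LinearMap.flip_apply, LinearMap.sum_apply, tens_apply,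
      LinearMap.smul_apply, smul_eq_mul,
      Basis.coord_apply, Basis.repr_self, Finsupp.single_apply, Prod.mk.injEq]
    by_cases hm : m = m'
    · subst hm
      fin_cases i <;> fin_cases i' <;> simp [bas_zero, bas_one, h]
    · have h1 : ∀ x : Fin 4, ¬ (m = x ∧ m' = x) := fun x h => hm (h.1.trans h.2.symm)
      have h2 : ∀ (x : Fin 4) (P Q : Prop) [Decidable P] [Decidable Q],
          (if m = x ∧ P then (1 : ℝ) else 0) * (if m' = x ∧ Q then (1 : ℝ) else 0) = 0 := by
        intro x P Q _ _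
        by_cases h3 : m = x
        · have h4 : ¬ m' = x := fun h => h1 x ⟨h3, h⟩
          simp [h4]
        · simp [h3]
      have h2' : ∀ (x : Fin 4) (P Q : Prop) [Decidable P] [Decidable Q],
          (if m' = x ∧ P then (1 : ℝ) else 0) * (if m = x ∧ Q then (1 : ℝ) else 0) = 0 := by
        intro x P Q _ _
        rw [mul_comm]
        exact h2 x Q P
      simp only [h2, h2', mul_zero, Finset.sum_const_zero, sub_zero]
      fin_cases i <;> fin_cases i' <;> simp [bas_zero, bas_one, h, hm]
  have h24 : ((Nat.factorial 4 : ℕ) : ℝ) = 24 := by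
    have : Nat.factorial 4 = 24 := by decide
    rw [this]
    norm_num
  rw [pow4_rb, hω, pf_skew, pf_diag, h24, Fintype.card_fin, ← mul_assoc]
  norm_num

theorem powProps : PowProps where
  comp := pcomp
  nondeg := pnondeg
  diag := pdiag
  symm12 := w12
  symm23 := w23
  symm34 := w34
  add := wadd
  smul := wsmul
  cont := wcont rb

end Pool.Agent.H575.SD
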